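import Pool.Agent.V11120.PalT.Defect

/-!
# A word with `T(n) = 0` eventually whose long factors need not have a unioccurrent longest
palindromic suffix
-/

set_option autoImplicit false

namespace Pool.Agent.Results.MP_18fb49_co.NoBound

open Pool.Agent.V11120.PalT

/-- `p` is the longest palindromic suffix of `f`. -/
def IsLPS {A : Type} (p f : List A) : Prop :=
  p <:+ f ∧ Pal p ∧ ∀ q, q <:+ f → Pal q → q.length ≤ p.length

namespace Proof

/-- the palindromic prefixes: `W 0 = bcacb`, `W (k+1) = W k · a^(k+1) · W k`,
where `a = 0`, `b = 1`, `c = 2` -/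
def W : ℕ → List (Fin 3)
  | 0 => [1, 2, 0, 2, 1]
  | k + 1 => W k ++ (List.replicate (k + 1) 0 ++ W k)

/-- the limit word -/
def u (i : ℕ) : Fin 3 := (W i).getD i 0

/-- lengths -/
def L (k : ℕ) : ℕ := (W k).length

theorem L_zero : L 0 = 5 := rfl

theorem L_succ (k : ℕ) : L (k + 1) = L k + (k + 1) + L k := by
  simp [L, W]; ring

theorem L_gt (k : ℕ) : k + 5 ≤ L k := by
  induction k with
  | zero => rw [L_zero]
  | succ k ih => rw [L_succ]; omega

theorem W_getD (k d i : ℕ) (h : i < L k) : (W (k + d)).getD i 0 = (W k).getD i 0 := by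
  induction d with
  | zero => rfl
  | succ d ih =>
    have hl : i < (W (k + d)).length := by
      have : ∀ d, L k ≤ L (k + d) := by
        intro d
        induction d with
        | zero => exact le_rfl
        | succ d ih => rw [← add_assoc, L_succ]; omega
      exact lt_of_lt_of_le h (this d)
    rw [← ih, ← add_assoc, W, List.getD_append _ _ _ _ hl]

theorem u_eq (k i : ℕ) (h : i < L k) : u i = (W k).getD i 0 := by
  rw [u]
  rcases le_total i k with h1 | h1
  · obtain ⟨d, rfl⟩ := Nat.exists_eq_add_of_le h1
    exact (W_getD i d i (by have := L_gt i; omega)).symm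
  · obtain ⟨d, hd⟩ := Nat.exists_eq_add_of_le h1
    conv_lhs => rw [hd]
    rw [← hd]
    have := W_getD k d i h
    rw [← hd] at this
    exact this

theorem u0 : u 0 = 1 := by decide
theorem u1 : u 1 = 2 := by rw [u_eq 0 1 (by rw [L_zero]; omega)]; rfl
theorem u2 : u 2 = 0 := by rw [u_eq 0 2 (by rw [L_zero]; omega)]; rfl
theorem u3 : u 3 = 2 := by rw [u_eq 0 3 (by rw [L_zero]; omega)]; rfl
theorem u4 : u 4 = 1 := by rw [u_eq 0 4 (by rw [L_zero]; omega)]; rfl

theorem u_mid (k i : ℕ) (h : i < k + 1) : u (L k + i) = 0 := by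
  rw [u_eq (k + 1) _ (by rw [L_succ]; omega), W,
    List.getD_append_right _ _ _ _ (by unfold L; omega)]
  rw [show L k + i - (W k).length = i by unfold L; omega,
    List.getD_append _ _ _ _ (by simpa using h)]
  simp [List.getD_eq_getElem?_getD, h]

theorem u_right (k i : ℕ) (h : i < L k) : u (L k + (k + 1) + i) = u i := by
  rw [u_eq (k + 1) _ (by rw [L_succ]; omega), W,
    List.getD_append_right _ _ _ _ (by unfold L; omega)]
  rw [show L k + (k + 1) + i - (W k).length = k + 1 + i by unfold L; omega,
    List.getD_append_right _ _ _ _ (by simp), List.length_replicate,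
    show k + 1 + i - (k + 1) = i by omega, u_eq k i h]

theorem pal_W (k : ℕ) : PalI u 0 (L k) := by
  induction k with
  | zero =>
    intro s t _ _ h
    rw [L_zero] at h
    have hs : s < 5 := by omega
    have ht : t = 4 - s := by omega
    subst ht
    interval_cases s <;> simp [u0, u1, u2, u3, u4]
  | succ k ih =>
    have key : ∀ s t, s < L k → s + t + 1 = L (k + 1) → u s = u t := by
      intro s t hs h
      rw [L_succ] at h
      rw [show t = L k + (k + 1) + (L k - 1 - s) by omega, u_right k _ (by omega)]
      exact ih _ _ (by omega) (by omega) (by omega)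
    intro s t _ _ h
    rw [zero_add] at h
    rcases Nat.lt_or_ge s (L k) with h1 | h1
    · exact key s t h1 h
    · rcases Nat.lt_or_ge t (L k) with h2 | h2
      · exact (key t s h2 (by omega)).symm
      · rw [L_succ] at h
        rw [show s = L k + (s - L k) by omega, show t = L k + (t - L k) by omega,
          u_mid k _ (by omega), u_mid k _ (by omega)]

/-- windows of length `k+1` starting in `W k` (`k ≥ 1`) contain a letter different from `a` -/
theorem run (k : ℕ) : ∀ t, t < L (k + 1) → ∃ i ≤ k + 1, t + i < L (k + 1) ∧ u (t + i) ≠ 0 := by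
  induction k with
  | zero =>
    intro t ht
    have hL : L (0 + 1) = 11 := by rw [L_succ, L_zero]
    rw [hL] at ht ⊢
    have h6 : ∀ i, i < 5 → u (6 + i) = u i := by
      intro i hi
      have := u_right 0 i (by rw [L_zero]; exact hi)
      rwa [L_zero] at this
    have u6 : u 6 = 1 := by rw [show 6 = 6 + 0 by rfl, h6 0 (by omega), u0]
    have u7 : u 7 = 2 := by rw [show 7 = 6 + 1 by rfl, h6 1 (by omega), u1]
    have u9 : u 9 = 2 := by rw [show 9 = 6 + 3 by rfl, h6 3 (by omega), u3]
    have u10 : u 10 = 1 := by rw [show 10 = 6 + 4 by rfl, h6 4 (by omega), u4]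
    interval_cases t
    · exact ⟨0, by omega, by omega, by rw [add_zero, u0]; decide⟩
    · exact ⟨0, by omega, by omega, by rw [add_zero, u1]; decide⟩
    · exact ⟨1, by omega, by omega, by rw [show 2 + 1 = 3 by rfl, u3]; decide⟩
    · exact ⟨0, by omega, by omega, by rw [add_zero, u3]; decide⟩
    · exact ⟨0, by omega, by omega, by rw [add_zero, u4]; decide⟩
    · exact ⟨1, by omega, by omega, by rw [show 5 + 1 = 6 by rfl, u6]; decide⟩
    · exact ⟨0, by omega, by omega, by rw [add_zero, u6]; decide⟩
    · exact ⟨0, by omega, by omega, by rw [add_zero, u7]; decide⟩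
    · exact ⟨1, by omega, by omega, by rw [show 8 + 1 = 9 by rfl, u9]; decide⟩
    · exact ⟨0, by omega, by omega, by rw [add_zero, u9]; decide⟩
    · exact ⟨0, by omega, by omega, by rw [add_zero, u10]; decide⟩
  | succ k ih =>
    intro t ht
    have hL := L_succ (k + 1)
    have hg := L_gt (k + 1)
    rcases Nat.lt_or_ge t (L (k + 1)) with h1 | h1
    · obtain ⟨i, hi1, hi2, hi3⟩ := ih t h1
      exact ⟨i, by omega, by omega, hi3⟩
    · rcases Nat.lt_or_ge t (L (k + 1) + (k + 1 + 1)) with h2 | h2
      · refine ⟨L (k + 1) + (k + 1 + 1) - t, by omega, by omega, ?_⟩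
        rw [show t + (L (k + 1) + (k + 1 + 1) - t) = L (k + 1) + (k + 1 + 1) + 0 by omega,
          u_right (k + 1) 0 (by omega), u0]
        decide
      · obtain ⟨i, hi1, hi2, hi3⟩ := ih (t - (L (k + 1) + (k + 1 + 1))) (by omega)
        refine ⟨i, by omega, by omega, ?_⟩
        rw [show t + i = L (k + 1) + (k + 1 + 1) + (t - (L (k + 1) + (k + 1 + 1)) + i) by omega,
          u_right (k + 1) _ hi2]
        exact hi3

/-- the word `W m · a^s · W m` -/
def Blk (m s : ℕ) (x : ℕ → Fin 3) : Prop :=
  (∀ i < L m, x i = u i) ∧ (∀ i < s, x (L m + i) = 0) ∧ ∀ i < L m, x (L m + s + i) = u i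

theorem no_occ (m : ℕ) : ∀ (s : ℕ) (x : ℕ → Fin 3), m + 1 ≤ s → Blk m s x →
    ∀ t, 0 < t → t < L m + s → ¬ ∀ i < L m, x (t + i) = u i := by
  induction m with
  | zero =>
    intro s x hs hx t ht1 ht2 h
    obtain ⟨h1, h2, h3⟩ := hx
    rw [L_zero] at h1 h2 h3 h ht2
    have h0 := h 0 (by omega)
    rw [add_zero, u0] at h0
    rcases Nat.lt_or_ge t 5 with h4 | h4
    · rw [h1 t h4] at h0
      have h5 := h 1 (by omega)
      rw [u1] at h5
      interval_cases t
      · rw [u1] at h0; exact absurd h0 (by decide)
      · rw [u2] at h0; exact absurd h0 (by decide)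
      · rw [u3] at h0; exact absurd h0 (by decide)
      · have h6 := h2 0 (by omega)
        rw [show 4 + 1 = 5 + 0 by rfl, h6] at h5
        exact absurd h5 (by decide)
    · have h6 := h2 (t - 5) (by omega)
      rw [show 5 + (t - 5) = t by omega, h0] at h6
      exact absurd h6 (by decide)
  | succ m ih =>
    intro s x hs hx t ht1 ht2 h
    obtain ⟨h1, h2, h3⟩ := hx
    have hL := L_succ m
    have hg := L_gt m
    have b1 : Blk m (m + 1) x := by
      refine ⟨fun i hi => h1 i (by omega), fun i hi => ?_, fun i hi => ?_⟩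
      · rw [h1 _ (by omega), u_mid m i hi]
      · rw [h1 _ (by omega), u_right m i hi]
    have b2 : Blk m s (fun i => x (L m + (m + 1) + i)) := by
      refine ⟨fun i hi => ?_, fun i hi => ?_, fun i hi => ?_⟩
      · show x _ = _
        rw [h1 _ (by omega), u_right m i hi]
      · show x _ = _
        rw [show L m + (m + 1) + (L m + i) = L (m + 1) + i by omega, h2 i hi]
      · show x _ = _
        rw [show L m + (m + 1) + (L m + s + i) = L (m + 1) + s + i by omega, h3 i (by omega)]
    rcases lt_trichotomy t (L m + (m + 1)) with h4 | h4 | h4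
    · exact ih (m + 1) x le_rfl b1 t ht1 h4 (fun i hi => h i (by omega))
    · have h5 := h (L m + (m + 1)) (by omega)
      have h6 := u_right m 0 (by omega)
      rw [add_zero] at h6
      rw [h6, u0, h4, show L m + (m + 1) + (L m + (m + 1)) = L (m + 1) + (m + 1) by omega,
        h2 (m + 1) (by omega)] at h5
      exact absurd h5 (by decide)
    · apply ih s _ (by omega) b2 (t - (L m + (m + 1))) (by omega) (by omega)
      intro i hi
      show x _ = _
      rw [show L m + (m + 1) + (t - (L m + (m + 1)) + i) = t + i by omega]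
      exact h i (by omega)

theorem L_mono {j k : ℕ} (h : j ≤ k) : L j ≤ L k := by
  obtain ⟨d, rfl⟩ := Nat.exists_eq_add_of_le h
  induction d with
  | zero => exact le_rfl
  | succ d ih => rw [← add_assoc, L_succ]; have := ih (by omega); omega

/-- all long prefixes have a unioccurrent palindromic suffix -/
theorem uni (m : ℕ) (hm : 12 ≤ m) : Uni u m := by
  classical
  -- the level
  have hex : ∃ k, m ≤ L (k + 2) := ⟨m, by have := L_gt (m + 2); omega⟩
  have hspec := Nat.find_spec hex
  have hmin : ∀ k', k' < Nat.find hex → ¬ m ≤ L (k' + 2) := fun k' h => Nat.find_min hex h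
  set k := Nat.find hex with hk
  have hlow : L (k + 1) < m := by
    rcases Nat.eq_zero_or_pos k with h0 | h0
    · rw [h0, L_succ, L_zero]; omega
    · have := hmin (k - 1) (by omega)
      rw [show k - 1 + 2 = k + 1 by omega] at this
      omega
  have e1 : L (k + 2) = L (k + 1) + (k + 2) + L (k + 1) := L_succ (k + 1)
  have e2 : L (k + 1) = L k + (k + 1) + L k := L_succ k
  have hg := L_gt k
  rcases Nat.lt_or_ge m (L (k + 1) + (k + 2)) with h1 | h1
  · -- `m = L (k+1) + j`, `1 ≤ j ≤ k+1`
    obtain ⟨j, hj⟩ : ∃ j, m = L (k + 1) + j := ⟨m - L (k + 1), by omega⟩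
    refine ⟨L k + (k + 1) - j, by omega, ?_, ?_⟩
    · intro x y hx hy hxy
      have ha1 : ∀ z, L k + (k + 1) - j ≤ z → z < L k + (k + 1) → u z = 0 := by
        intro z hz1 hz2
        rw [show z = L k + (z - L k) by omega]
        exact u_mid k _ (by omega)
      have ha2 : ∀ z, L (k + 1) ≤ z → z < m → u z = 0 := by
        intro z hz1 hz2
        rw [show z = L (k + 1) + (z - L (k + 1)) by omega]
        exact u_mid (k + 1) _ (by omega)
      rcases Nat.lt_or_ge x (L k + (k + 1)) with h2 | h2
      · rw [ha1 x hx h2, ha2 y (by omega) (by omega)]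
      · rcases Nat.lt_or_ge x (L (k + 1)) with h3 | h3
        · have r1 := u_right k (x - (L k + (k + 1))) (by omega)
          have r2 := u_right k (y - (L k + (k + 1))) (by omega)
          rw [show L k + (k + 1) + (x - (L k + (k + 1))) = x by omega] at r1
          rw [show L k + (k + 1) + (y - (L k + (k + 1))) = y by omega] at r2
          rw [r1, r2]
          exact pal_W k _ _ (by omega) (by omega) (by omega)
        · rw [ha2 x h3 (by omega), ha1 y hy (by omega)]
    · intro s' hs' hsame
      apply no_occ k (k + 1) u le_rfl ⟨fun i _ => rfl, fun i hi => u_mid k i hi,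
        fun i hi => u_right k i hi⟩ (s' + j) (by omega) (by omega)
      intro i hi
      have := hsame (j + i) (by omega)
      rw [← add_assoc, show L k + (k + 1) - j + (j + i) = L k + (k + 1) + i by omega,
        u_right k i hi] at this
      exact this
  · -- `m = L (k+1) + (k+2) + j`
    obtain ⟨j, hj⟩ : ∃ j, m = L (k + 1) + (k + 2) + j := ⟨m - (L (k + 1) + (k + 2)), by omega⟩
    refine ⟨L (k + 1) - j, by omega, ?_, ?_⟩
    · exact (pal_W (k + 2)).sub (by omega) (by omega)
    · intro s' hs' hsame
      obtain ⟨i, hi1, hi2, hi3⟩ := run k (s' + j) (by omega)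
      apply hi3
      have := hsame (j + i) (by omega)
      rw [← add_assoc, show L (k + 1) - j + (j + i) = L (k + 1) + i by omega,
        u_mid (k + 1) i (by omega)] at this
      exact this

theorem closedRev : ClosedRev u := by
  rintro w ⟨i, n, rfl⟩
  have hg := L_gt (i + n)
  refine ⟨L (i + n) - (i + n), n, ?_⟩
  rw [fac_rev_eq_iff]
  intro s t hst
  exact pal_W (i + n) _ _ (by omega) (by omega) (by omega)

theorem inf_pal : {w | w ∈ Lang u ∧ Pal w}.Infinite := by
  apply Set.infinite_of_injective_forall_mem (f := fun k : ℕ => fac u 0 (L k))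
  · intro j k h
    have h1 := congrArg List.length h
    simp only [fac_length] at h1
    by_contra hne
    rcases lt_or_gt_of_ne hne with h2 | h2
    · have := L_mono (show j + 1 ≤ k by omega)
      have := L_succ j
      omega
    · have := L_mono (show k + 1 ≤ j by omega)
      have := L_succ k
      omega
  · intro k
    refine ⟨mem_lang _ _ _, ?_⟩
    rw [pal_fac_iff, zero_add]
    exact pal_W k

/-- the factor `a^(n+1) b c a` -/
theorem bad (n : ℕ) : ∃ f ∈ Lang u, n ≤ f.length ∧ ∃ p, IsLPS p f ∧
    ∃ i j, i ≠ j ∧ OccAt p f i ∧ OccAt p f j := by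
  have hg := L_gt n
  have ha : ∀ i, i < n + 1 → u (L n + i) = 0 := fun i hi => u_mid n i hi
  have hb : u (L n + (n + 1)) = 1 := by
    have := u_right n 0 (by omega)
    rw [add_zero, u0] at this
    exact this
  have hc : u (L n + (n + 2)) = 2 := by
    have := u_right n 1 (by omega)
    rw [u1] at this
    rw [← this]; congr 1
  have hd : u (L n + (n + 3)) = 0 := by
    have := u_right n 2 (by omega)
    rw [u2] at this
    rw [← this]; congr 1
  refine ⟨fac u (L n) (n + 4), mem_lang _ _ _, by rw [fac_length]; omega,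
    [0], ⟨?_, rfl, ?_⟩, 0, n + 3, by omega, ?_, ?_⟩
  · refine ⟨fac u (L n) (n + 3), ?_⟩
    unfold fac
    conv_rhs => rw [show n + 4 = n + 3 + 1 from rfl, List.range_succ, List.map_append,
      List.map_singleton, hd]
  · intro q hq hp
    by_contra hlen
    push Not at hlen
    have hlen : 2 ≤ q.length := hlen
    have hql := hq.length_le
    rw [fac_length] at hql
    have hqe : q = fac u (L n + (n + 4 - q.length)) q.length := by
      have h1 := List.suffix_iff_eq_drop.1 hq
      rw [fac_length] at h1
      conv_lhs => rw [h1]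
      apply List.ext_getElem
      · simp [fac]; omega
      · intro a h1 h2
        simp [fac, add_assoc]
    rw [hqe, pal_fac_iff] at hp
    generalize hl : q.length = l at *
    clear hqe hq hl
    have h1 := hp (L n + (n + 4 - l) + 1) (L n + (n + 2)) (by omega) (by omega) (by omega)
    rw [hc] at h1
    have h2 := hp (L n + (n + 4 - l)) (L n + (n + 3)) (by omega) (by omega) (by omega)
    rw [hd] at h2
    rcases (show l = 2 ∨ l = 3 ∨ 4 ≤ l by omega) with h3 | h3 | h3
    · rw [h3, show n + 4 - 2 = n + 2 by omega, hc] at h2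
      exact absurd h2 (by decide)
    · rw [h3, show n + 4 - 3 = n + 1 by omega, hb] at h2
      exact absurd h2 (by decide)
    · rcases Nat.eq_or_lt_of_le h3 with h4 | h4
      · rw [← h4, show L n + (n + 4 - 4) + 1 = L n + (n + 1) by omega, hb] at h1
        exact absurd h1 (by decide)
      · rw [show L n + (n + 4 - l) + 1 = L n + (n + 4 - l + 1) by omega, ha _ (by omega)] at h1
        exact absurd h1 (by decide)
  · refine ⟨by simp [fac_length], ?_⟩
    apply List.ext_getElem
    · simp [fac]
    · intro a h1 h2
      have h3 : a = 0 := by simpa using h2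
      subst h3
      simpa [fac] using ha 0 (by omega)
  · refine ⟨by simp [fac_length], ?_⟩
    apply List.ext_getElem
    · simp [fac]
    · intro a h1 h2
      have h3 : a = 0 := by simpa using h2
      subst h3
      simpa [fac] using hd

end Proof

/-- (1) There is an infinite word over three letters whose language is closed under reversal and
contains infinitely many palindromes, with `T(n) = 0` for all large `n`, such that for every
`H` some factor of length `≥ H` contains its longest palindromic suffix at least twice.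
(2) If the language of `u` is closed under reversal and `T(n) = 0` for all large `n`, then the
palindromic defect of `u` is finite. -/
theorem result :
    (∃ u : ℕ → Fin 3, ClosedRev u ∧ {w | w ∈ Lang u ∧ Pal w}.Infinite ∧
      (∃ N, ∀ n, N ≤ n → T u n = 0) ∧
      ∀ H : ℕ, ∃ f ∈ Lang u, H ≤ f.length ∧ ∃ p, IsLPS p f ∧
        ∃ i j, i ≠ j ∧ OccAt p f i ∧ OccAt p f j) ∧
    ∀ (A : Type) [Finite A] (u : ℕ → A), ClosedRev u → (∃ N, ∀ n, N ≤ n → T u n = 0) →
      FiniteDefect u :=
  ⟨⟨Proof.u, Proof.closedRev, Proof.inf_pal,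
    ⟨12, fun n hn => T_zero Proof.u Proof.closedRev 12 Proof.uni n hn⟩, Proof.bad⟩,
    fun _ _ u hrev hT => finiteDefect_of_T u hrev hT⟩

end Pool.Agent.Results.MP_18fb49_co.NoBound
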